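import Pool.Agent.Helper10.BLD.Tc
import Pool.Agent.Helper90.BLD.Nlz
import Pool.Agent.Helper52.SL.Ext

/-! THE BUILDER, one weight one: labels for the deep point (fields `lab`, `nlk`, `nlw` of `J1`) from the labels of the deep
corner. -/

set_option autoImplicit false

namespace Pool.Agent.Helper80.BLD

open Finset Filter Topology Pool.Agent.Helper69.RK Pool.Agent.Helper31.EC Pool.Agent.Helper31.EC.Sp
open Pool.Agent.Helper31.EC.QS Pool.Agent.Helper40.EL Pool.Agent.Helper89.LX Pool.Agent.Helper13.AM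
open Pool.Agent.Helper10.BLD
open Pool.Agent.Helper38.NS (dp dP dL dL_le dL_I dP_map dL_mono dL_sup)
open Pool.Agent.Helper90.BLD (nul_leak)
open Pool.Agent.Helper52.SL (tnL tnF nul_trn)

noncomputable section

/-! ### labels -/

section lab

variable {T : Sp} {κ : ℝ} {h0 : 0 < κ}

theorem rp_dL (x : T.L) : PLe (rp (dL κ h0 x)) (rpI (chgI T.tr κ h0 (rpo x))) ∧
    PLe (rpI (chgI T.tr κ h0 (rpo x))) (rp (dL κ h0 x)) := by
  have h1 := rp_rpI (chgI T.tr κ h0 (rpo x))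
  have e1 : Sp.cl (chgI T.tr κ h0 (rpo x)) = dL κ h0 x := by
    rw [← chgL_cl, cl_rpo]
    rfl
  rw [e1] at h1
  exact h1

/-- labels of a space and of the deep space have the same leaks -/
theorem nul_dL (l : Lab T) (x : T.L) : Nul (dp T κ h0) (fun k => (tnL κ h0 l k).leak (rp (dL κ h0 x) k)) ↔
    Nul T (fun k => (l k).leak (rp x k)) := by
  have h1 := rp_dL (h0 := h0) x
  have e1 : (fun k => (l k).leak (rp x k)) =
      fun k => (tnL κ h0 l k).leak (rpI (chgI T.tr κ h0 (rpo x)) k) := rfl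
  rw [e1, ← nul_trn (S := T) (r := κ) (h0 := h0)]
  exact ⟨fun h => nul_leak h h1.1, fun h => nul_leak h h1.2⟩

theorem ub_dL {l : Lab T} (h : UB (fun k => H ((l k).v) / (T.F k).n)) :
    UB (fun k => H ((tnL κ h0 l k).v) / ((dp T κ h0).F k).n) := by
  obtain ⟨a, ha⟩ := h
  refine ⟨a / κ, ?_⟩
  filter_upwards [ha] with k hk
  have e1 : H ((tnL κ h0 l k).v) / ((dp T κ h0).F k).n = H ((l k).v) / (T.F k).n / κ := by
    have e2 : ((dp T κ h0).F k).n = κ * (T.F k).n := rfl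
    have e3 : H ((tnL κ h0 l k).v) = H ((l k).v) := rfl
    rw [e2, e3, mul_comm, div_div]
  rw [e1, abs_div, abs_of_pos h0]
  exact div_le_div_of_nonneg_right hk h0.le

end lab

/-! ### the fields -/

section j1

variable {T : Sp} {N r : ℕ} {w : Fin N → ℝ} {z : Fin N} {ρ : ℝ} {h0 : 0 < w z} {h1 : 1 ≤ w z} {c : CD T 0 N r}
  {cb : CD (dp T (w z) h0) 0 N r} (t : Trc h0 h1 c cb) (A : c.Ax w z ρ) (Ab : cb.Ax w z ρ)

include t A Ab

theorem j1_xi (i : Fin r) {s : ℝ} (hs1 : s ≤ 1) :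
    c.xi i ⊔ dg (c.q 0) s ≤ uL (w z) h0 (cb.xi i ⊔ dg (cb.q 0) (s / w z)) := by
  rw [uL_sup, t.dq 0 hs1]
  exact sup_le_sup_right (t.xi_le A Ab i) _

omit t A Ab in
theorem s_le_one (h1 : 1 ≤ w z) {s : ℝ} (hs : 0 ≤ s) (hws : w z * s < 1) : s < 1 := by
  have := mul_le_mul_of_nonneg_right h1 hs
  linarith

theorem j1_lab (s : ℝ) (hs : 0 ≤ s) (hws : w z * s < 1) (X : T.L) (hO : X ≤ uL _ h0 cb.O)
    (hX : ∀ i, X ≤ c.xi i ⊔ dg (c.q 0) s) : X ≤ c.K s := by
  have hs1 := s_le_one h1 hs hws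
  rw [t.K_eq A Ab hs hws.le, le_uL]
  apply Ab.lb.lab (s / w z) (div_nonneg hs h0.le)
  · rw [mul_div_cancel₀ _ h0.ne']
    exact hs1
  · exact (le_uL _ h0).mp hO
  · intro i
    exact (le_uL _ h0).mp ((hX i).trans (j1_xi t A Ab i hs1.le))

theorem j1_nlk (s : ℝ) (hs : 0 ≤ s) (hws : w z * s < 1) (W : Sp) (p : Pj W T) (E : ∀ k, (W.F k).Ω → Prop)
    (hE : 0 < ul (W.pr E)) (V : (W.rest E).L)
    (hO : ∀ y : T.L, I V (restL E hE (p.map y)) (restL E hE (p.map (uL _ h0 cb.O))) = 0)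
    (hX : ∀ (i : Fin r) (y : T.L), I V (restL E hE (p.map y)) (restL E hE (p.map (c.xi i ⊔ dg (c.q 0) s))) = 0)
    (y : T.L) : I V (restL E hE (p.map y)) (restL E hE (p.map (c.K s))) = 0 := by
  have hs1 := s_le_one h1 hs hws
  have key : ∀ yb : (dp T (w z) h0).L, restL (S := dp W (w z) h0) E hE ((dP (w z) h0 p).map yb) =
      dL (S := W.rest E) (w z) h0 (restL E hE (p.map (uL (w z) h0 yb))) := by
    intro yb
    have e1 : (dP (w z) h0 p).map yb = dL (w z) h0 (p.map (uL (w z) h0 yb)) := by rw [← dP_uL, dL_uL]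
    exact (congrArg (restL (S := dp W (w z) h0) E hE) e1).trans (dL_rest (S := W) (w z) h0 E hE _)
  have key2 : ∀ a b : (dp T (w z) h0).L, I (L := ((dp W (w z) h0).rest E).L) (dL (S := W.rest E) (w z) h0 V)
      (restL (S := dp W (w z) h0) E hE ((dP (w z) h0 p).map a))
      (restL (S := dp W (w z) h0) E hE ((dP (w z) h0 p).map b)) =
      I V (restL E hE (p.map (uL (w z) h0 a))) (restL E hE (p.map (uL (w z) h0 b))) / w z := by
    intro a b
    rw [key, key]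
    exact dL_I (S := W.rest E) (w z) h0 _ _ _
  have h2 := Ab.lb.nlk (s / w z) (div_nonneg hs h0.le) (by
    rw [mul_div_cancel₀ _ h0.ne']
    exact hs1) (dp W (w z) h0) (dP (w z) h0 p) E hE (dL (S := W.rest E) (w z) h0 V) (by
      intro yb
      rw [key2, hO, zero_div]) (by
      intro i yb
      rw [key2]
      rw [div_eq_zero_iff]
      left
      have hle : restL E hE (p.map (c.xi i ⊔ dg (c.q 0) s)) ≤
          restL E hE (p.map (uL (w z) h0 (cb.xi i ⊔ dg (cb.q 0) (s / w z)))) :=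
        restL_mono E hE (p.map_mono (j1_xi t A Ab i hs1.le))
      have h3 := hX i (uL (w z) h0 yb ⊔ uL (w z) h0 (cb.xi i ⊔ dg (cb.q 0) (s / w z)))
      rw [p.map_sup, restL_sup, sup_comm, I_chain_right] at h3
      have h4 := I_nonneg V (restL E hE (p.map (uL (w z) h0 (cb.xi i ⊔ dg (cb.q 0) (s / w z)))))
        (restL E hE (p.map (c.xi i ⊔ dg (c.q 0) s)))
      have h5 := I_nonneg V (restL E hE (p.map (uL (w z) h0 yb)))
        (restL E hE (p.map (uL (w z) h0 (cb.xi i ⊔ dg (cb.q 0) (s / w z)))) ⊔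
          restL E hE (p.map (c.xi i ⊔ dg (c.q 0) s)))
      rw [sup_eq_left.mpr hle] at h3 h5
      linarith) (dL (w z) h0 y)
  rw [key2, uL_dL, div_eq_zero_iff, or_iff_left h0.ne', ← t.K_eq A Ab hs hws.le] at h2
  exact h2

theorem j1_nlw (s : ℝ) (hs : 0 ≤ s) (hws : w z * s < 1) (la : Lab T) (hub : UB (fun k => H ((la k).v) / (T.F k).n))
    (hO : Nul T (fun k => (la k).leak (rp (uL _ h0 cb.O) k)))
    (hX : ∀ i, Nul T (fun k => (la k).leak (rp (c.xi i ⊔ dg (c.q 0) s) k))) :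
    Nul T (fun k => (la k).leak (rp (c.K s) k)) := by
  have hs1 := s_le_one h1 hs hws
  rw [← nul_dL (h0 := h0), t.K_eq A Ab hs hws.le, dL_uL]
  apply Ab.lb.nlw (s / w z) (div_nonneg hs h0.le) _ _ (ub_dL hub)
  · rw [← nul_dL (h0 := h0), dL_uL] at hO
    exact hO
  · intro i
    have h2 := (nul_dL (h0 := h0) la _).mpr (hX i)
    refine nul_leak h2 (rp_mono ?_)
    exact (dL_mono _ h0 (j1_xi t A Ab i hs1.le)).trans (dL_uL _ h0 _).le
  · rw [mul_div_cancel₀ _ h0.ne']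
    exact hs1

end j1

end

end Pool.Agent.Helper80.BLD
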