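import Pool.Agent.Helper10.BLD.St1
import Pool.Agent.Helper90.BLD.Lbk

/-! THE BUILDER, one weight one: the class `C1` under extensions and events (part of `ST_CL1`). -/

set_option autoImplicit false

namespace Pool.Agent.Helper80.BLD

open Finset Filter Topology Pool.Agent.Helper69.RK Pool.Agent.Helper31.EC Pool.Agent.Helper31.EC.Sp
open Pool.Agent.Helper31.EC.QS Pool.Agent.Helper84.MT Pool.Agent.Helper36.AM Pool.Agent.Helper13.AM
open Pool.Agent.Helper10.BLD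
open Pool.Agent.Helper38.NS (dp dP)
open Pool.Agent.Helper5.DO (py py_coeff_hom py_map)
open Pool.Agent.Helper90.BLD (pull_O rest_O pull_dg)

noncomputable section

section top

variable {S : Sp} {d N r : ℕ} {c : CD S d N r} {w : Fin N → ℝ} {l : Fin N}

theorem top_pull (h : Top c w l) {T : Sp} (p : Pj T S) : Top (c.pull p) w l := by
  intro K hK
  have h1 := h K hK
  have e1 : (univ.sup fun i => dg ((py ((c.pull p).cf i l)).coeff K) 1) =
      p.map (univ.sup fun i => dg ((py (c.cf i l)).coeff K) 1) := by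
    rw [sup_map]
    apply Finset.sup_congr rfl
    intro i _
    rw [← pull_dg, ← py_coeff_hom]
    rfl
  rw [e1, pull_O, ← p.map_bot, p.I_map, h1]

theorem top_rest (h : Top c w l) (E : ∀ k, (S.F k).Ω → Prop) (hE : 0 < ul (S.pr E)) : Top (c.rest E hE) w l := by
  intro K hK
  have h1 := I_rest_zero E hE (h K hK)
  have e1 : (univ.sup fun i => dg ((py ((c.rest E hE).cf i l)).coeff K) 1) =
      restL E hE (univ.sup fun i => dg ((py (c.cf i l)).coeff K) 1) := by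
    rw [restL_finsup]
    apply Finset.sup_congr rfl
    intro i _
    rw [← Pool.Agent.Helper90.BLD.rest_dg, ← py_coeff_hom]
    rfl
  rw [restL_bot] at h1
  rw [e1, rest_O, h1]

end top

/-! ### the deep corner -/

section trc

variable {T : Sp} {N r' : ℕ} {κ : ℝ} {h0 : 0 < κ} {h1 : 1 ≤ κ} {c : CD T 0 N r'} {cb : CD (dp T κ h0) 0 N r'}

theorem trc_pull (h : Trc h0 h1 c cb) {W : Sp} (p : Pj W T) : Trc h0 h1 (c.pull p) (cb.pull (dP κ h0 p)) where
  q := fun i => by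
    show p.qs (c.q i) = uQ κ h0 h1 ((dP κ h0 p).qs (cb.q i))
    rw [dP_uQ, h.q]
  R := fun j => by
    show p.qs (c.R j) = uQ κ h0 h1 ((dP κ h0 p).qs (cb.R j))
    rw [dP_uQ, h.R]
  cf := fun i j => by
    show py (fun a => p.qs (c.cf i j a)) = (py fun a => (dP κ h0 p).qs (cb.cf i j a)).map (uQ κ h0 h1)
    rw [← py_map, ← py_map, h.cf, Polynomial.map_map, Polynomial.map_map]
    congr 1
    apply RingHom.ext
    intro f
    exact (dP_uQ κ h0 h1 p f).symm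
  q0 := fun s hs hs1 i => by
    show p.qs (c.q0 s i) = uQ κ h0 h1 ((dP κ h0 p).qs (cb.q0 (s / κ) i))
    rw [dP_uQ, h.q0 s hs hs1]
  γ := fun s hs hs1 j => by
    show p.qs (c.γ s j) = uQ κ h0 h1 ((dP κ h0 p).qs (cb.γ (s / κ) j))
    rw [dP_uQ, h.γ s hs hs1]
  VK := fun s hs hs1 k ω ω' g g' gz =>
    h.VK s hs hs1 k (p.π k ω) (p.π k ω') (p.supp k ω g) (p.supp k ω' g') ((p.hZ k ω ω' g g').mp gz)

theorem trc_rest (h : Trc h0 h1 c cb) (E : ∀ k, (T.F k).Ω → Prop) (hE : 0 < ul (T.pr E)) :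
    Trc (T := T.rest E) h0 h1 (c.rest E hE) (cb.rest (S := dp T κ h0) E hE) where
  q := fun i => by
    show QS.rest E hE (c.q i) = uQ (S := T.rest E) κ h0 h1 (QS.rest (S := dp T κ h0) E hE (cb.q i))
    rw [uQ_rest, h.q]
  R := fun j => by
    show QS.rest E hE (c.R j) = uQ (S := T.rest E) κ h0 h1 (QS.rest (S := dp T κ h0) E hE (cb.R j))
    rw [uQ_rest, h.R]
  cf := fun i j => by
    have e1 : py (fun a => QS.rest E hE (c.cf i j a)) = (py (c.cf i j)).map (QS.rest E hE) := (py_map _ _).symm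
    have e2 : py (fun a => QS.rest (S := dp T κ h0) E hE (cb.cf i j a)) =
      (py (cb.cf i j)).map (QS.rest (S := dp T κ h0) E hE) := (py_map _ _).symm
    have e3 : (uQ (S := T.rest E) κ h0 h1).comp (QS.rest (S := dp T κ h0) E hE) =
        (QS.rest E hE).comp (uQ κ h0 h1) := RingHom.ext fun f => uQ_rest κ h0 h1 E hE f
    refine e1.trans ?_
    rw [h.cf, Polynomial.map_map, ← e3]
    exact (Polynomial.map_map (QS.rest (S := dp T κ h0) E hE) (uQ (S := T.rest E) κ h0 h1) (py (cb.cf i j))).symm.trans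
      (congrArg (Polynomial.map (uQ (S := T.rest E) κ h0 h1)) e2.symm)
  q0 := fun s hs hs1 i => by
    show QS.rest E hE (c.q0 s i) = uQ (S := T.rest E) κ h0 h1 (QS.rest (S := dp T κ h0) E hE (cb.q0 (s / κ) i))
    rw [uQ_rest, h.q0 s hs hs1]
  γ := fun s hs hs1 j => by
    show QS.rest E hE (c.γ s j) = uQ (S := T.rest E) κ h0 h1 (QS.rest (S := dp T κ h0) E hE (cb.γ (s / κ) j))
    rw [uQ_rest, h.γ s hs hs1]
  VK := fun s hs hs1 k ω ω' g g' gz =>
    h.VK s hs hs1 k ω ω' ((T.F k).rest_supp (E k) ω g).1 ((T.F k).rest_supp (E k) ω' g').1 gz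

end trc

/-! ### the class `CCo` -/

section cco

variable {M g r d N r' : ℕ} {w : Fin (M + 1) → ℝ} {ρ : ℝ} {Cl : MCl (M + 1)}
  {TT : ∀ S : Sp, MSys S (M + 1) (lin g) (Fin r) → Prop} {P : Spl w d N} {l : Fin N}

theorem ct_pull (hA : ST_AXP) (hV : ST_VWP M) (hT : Hom M Cl g r w ρ TT) {T : Sp} {c : CD T d N r'}
    (h : CT P ρ TT r' l T c) {W : Sp} (p : Pj W T) : CT P ρ TT r' l W (c.pull p) :=
  ⟨⟨(hA _ _ _ _ _ _ _ _ h.cc.ax0).1 W p, (hV Cl g r w ρ TT hT d N r' P T c h.cc).1 W p⟩, top_pull h.top p⟩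

theorem ct_rest (hA : ST_AXP) (hV : ST_VWP M) (hT : Hom M Cl g r w ρ TT) {T : Sp} {c : CD T d N r'}
    (h : CT P ρ TT r' l T c) (E : ∀ k, (T.F k).Ω → Prop) (hE : 0 < ul (T.pr E)) :
    CT P ρ TT r' l (T.rest E) (c.rest E hE) :=
  ⟨⟨(hA _ _ _ _ _ _ _ _ h.cc.ax0).2 E hE, (hV Cl g r w ρ TT hT d N r' P T c h.cc).2 E hE⟩, top_rest h.top E hE⟩

end cco

section c1

variable {M g r N r' : ℕ} {w : Fin (M + 1) → ℝ} {ρ : ℝ} {Cl : MCl (M + 1)}
  {TT : ∀ S : Sp, MSys S (M + 1) (lin g) (Fin r) → Prop} {P : Spl w 0 N} {l : Fin N}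

theorem c1_pull (hA : ST_AXP) (hV : ST_VWP M) (hT : Hom M Cl g r w ρ TT) {T : Sp} {c : CD T 0 N r'} {O : T.L}
    (h : C1 P ρ TT r' l T c O) {W : Sp} (p : Pj W T) : C1 P ρ TT r' l W (c.pull p) (p.map O) := by
  obtain ⟨h0, h1, cb, a1, a2, a3, rfl⟩ := h
  refine ⟨h0, h1, cb.pull (dP _ h0 p), ct_pull hA hV hT a1 p, ct_pull hA hV hT a2 (dP _ h0 p), trc_pull a3 p, ?_⟩
  rw [pull_O, dP_uL]

theorem c1_rest (hA : ST_AXP) (hV : ST_VWP M) (hT : Hom M Cl g r w ρ TT) {T : Sp} {c : CD T 0 N r'} {O : T.L}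
    (h : C1 P ρ TT r' l T c O) (E : ∀ k, (T.F k).Ω → Prop) (hE : 0 < ul (T.pr E)) :
    C1 P ρ TT r' l (T.rest E) (c.rest E hE) (restL E hE O) := by
  obtain ⟨h0, h1, cb, a1, a2, a3, rfl⟩ := h
  refine ⟨h0, h1, cb.rest (S := dp T _ h0) E hE, ct_rest hA hV hT a1 E hE, ct_rest hA hV hT a2 E hE,
    trc_rest a3 E hE, ?_⟩
  have e1 : (cb.rest (S := dp T _ h0) E hE).O = restL (S := dp T _ h0) E hE cb.O := rest_O cb E hE
  exact ((congrArg (uL (S := T.rest E) _ h0) e1).trans (uL_rest _ h0 E hE _)).symm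

end c1

end

end Pool.Agent.Helper80.BLD
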